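import Mathlib

namespace Pool.Agent.Results.MP_e3bb54_nt.Gap
open Finset

noncomputable def pr (i u v : ℕ) : ℕ := Nat.nth Nat.Prime (3 * Nat.pair u v + i)

lemma pr_prime (i u v : ℕ) : (pr i u v).Prime := Nat.prime_nth_prime _

lemma pr_dvd {i u v j s t : ℕ} (hi : i < 3) (hj : j < 3) (h : pr i u v ∣ pr j s t) :
    i = j ∧ u = s ∧ v = t := by
  have := Nat.nth_injective Nat.infinite_setOfPred_prime
    ((Nat.prime_dvd_prime_iff_eq (pr_prime _ _ _) (pr_prime _ _ _)).1 h)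
  exact ⟨by omega, Nat.pair_eq_pair.1 (by omega)⟩

noncomputable def val (k a b x : ℕ) : ℕ :=
  pr 0 x (a * x + b) * pr 1 a b * ∏ y ∈ (range k).erase x, pr 2 y (a * y + b)

lemma dv {i u v k a b x : ℕ} (hi : i < 3) (h : pr i u v ∣ val k a b x) :
    (i = 0 ∧ u = x ∧ v = a * x + b) ∨ (i = 1 ∧ u = a ∧ v = b) ∨
      (i = 2 ∧ u ≠ x ∧ v = a * u + b) := by
  have p := pr_prime i u v
  rcases p.dvd_mul.1 h with h | h
  · rcases p.dvd_mul.1 h with h | h
    · exact Or.inl (pr_dvd hi (by norm_num) h)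
    · exact Or.inr (Or.inl (pr_dvd hi (by norm_num) h))
  · obtain ⟨y, hy, h⟩ := (p.prime.dvd_finsetProd_iff _).1 h
    obtain ⟨h1, rfl, h3⟩ := pr_dvd hi (by norm_num) h
    exact Or.inr (Or.inr ⟨h1, (mem_erase.1 hy).1, h3⟩)

lemma priv {k a b x u w : ℕ} (h : val k a b x = u * w) (hu : pr 0 x (a * x + b) ∣ u) :
    ∃ z, (z = u ∨ z = w) ∧ ∀ a' b' x', x' < k → z ∣ val k a' b' x' → a = a' ∧ b = b' ∧ x = x' := by
  by_cases h1 : pr 1 a b ∣ u
  · refine ⟨u, Or.inl rfl, fun a' b' x' _ hz => ?_⟩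
    have p := dv (by norm_num) (hu.trans hz)
    have q := dv (by norm_num) (h1.trans hz)
    omega
  by_cases h2 : ∃ y, y ≠ x ∧ pr 2 y (a * y + b) ∣ u
  · obtain ⟨y, hy, h2⟩ := h2
    refine ⟨u, Or.inl rfl, fun a' b' x' _ hz => ?_⟩
    have p := dv (by norm_num) (hu.trans hz)
    have q := dv (by norm_num) (h2.trans hz)
    obtain ⟨rfl, p2⟩ : x = x' ∧ a * x + b = a' * x' + b' := by omega
    have q2 : a * y + b = a' * y + b' := by omega
    have : ((a : ℤ) - a') * (y - x) = 0 := by zify at p2 q2; linear_combination q2 - p2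
    have : a = a' := by
      rcases mul_eq_zero.1 this with h | h <;> omega
    subst this
    omega
  · refine ⟨w, Or.inr rfl, fun a' b' x' hx' hz => ?_⟩
    have d1 : pr 1 a b ∣ w := ((pr_prime _ _ _).dvd_mul.1
      (h ▸ (Dvd.intro_left _ rfl).mul_right _)).resolve_left h1
    have q := dv (by norm_num) (d1.trans hz)
    refine ⟨by omega, by omega, ?_⟩
    by_contra hne
    have d2 : pr 2 x' (a * x' + b) ∣ w := ((pr_prime _ _ _).dvd_mul.1 (h ▸ Dvd.dvd.mul_left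
      (dvd_prod_of_mem (fun y => pr 2 y (a * y + b))
        (mem_erase.2 ⟨Ne.symm hne, mem_range.2 hx'⟩)) _)).resolve_left
      fun hh => h2 ⟨x', Ne.symm hne, hh⟩
    have := dv (by norm_num) (d2.trans hz)
    omega

theorem result : ∃ ε : ℝ, 0 < ε ∧ ∃ n₀ : ℕ, ∀ n > n₀, ∃ B : Finset ℝ,
    (∀ b ∈ B, 0 < b) ∧ B.card = n ∧ ∃ A : Finset ℕ,
      (∀ a ∈ A, 0 < a ∧ ∃ x ∈ B, ∃ y ∈ B, (a : ℝ) = x * y) ∧
      ∀ C : Finset ℕ, (∀ c ∈ C, 0 < c) → (C.card : ℝ) < (n : ℝ) ^ (1 + ε) →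
        ¬ ∀ a ∈ A, ∃ x ∈ C, ∃ y ∈ C, a = x * y := by
  classical
  refine ⟨1 / 6, by norm_num, 24 ^ 8, fun n hn => ?_⟩
  obtain ⟨k, k1, k2⟩ : ∃ k : ℕ, 3 * k ^ 3 ≤ n ∧ n < 3 * (k + 1) ^ 3 := by
    have ex : ∃ k : ℕ, n < 3 * (k + 1) ^ 3 := ⟨n, by nlinarith [Nat.zero_le (n ^ 2), Nat.zero_le (n ^ 3)]⟩
    refine ⟨Nat.find ex, ?_, Nat.find_spec ex⟩
    rcases h : Nat.find ex with _ | j
    · simp
    · exact not_lt.1 (Nat.find_min ex (by omega))
  have k0 : 1 ≤ k := by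
    rcases k with _ | k
    · omega
    · omega
  have k3 : n ≤ 24 * k ^ 3 := by
    have := Nat.pow_le_pow_left (show k + 1 ≤ 2 * k by omega) 3
    rw [mul_pow] at this; omega
  have pos : ∀ i u v, (0 : ℝ) < pr i u v := fun i u v => by exact_mod_cast (pr_prime i u v).pos
  let P : ℕ × ℕ → ℝ := fun p => pr 0 p.1 p.2 / pr 2 p.1 p.2
  let Q : ℕ × ℕ → ℝ := fun p => pr 1 p.1 p.2 * ∏ y ∈ range k, (pr 2 y (p.1 * y + p.2) : ℝ)
  let B₀ := (range k ×ˢ range (2 * k ^ 2)).image P ∪ (range k ×ˢ range (k ^ 2)).image Q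
  have c0 : B₀.card ≤ n := by
    refine (card_union_le _ _).trans ((add_le_add card_image_le card_image_le).trans ?_)
    simp only [card_product, card_range]; nlinarith
  obtain ⟨B, b1, b2, b3⟩ := (Set.Ioi_infinite (0 : ℝ)).exists_superset_ncard_eq
    (s := (B₀ : Set ℝ)) (k := n) (fun x hx => by
      rcases mem_union.1 hx with hx | hx <;> obtain ⟨p, -, rfl⟩ := mem_image.1 hx
      · exact div_pos (pos _ _ _) (pos _ _ _)
      · exact mul_pos (pos _ _ _) (prod_pos fun _ _ => pos _ _ _)) B₀.finite_toSet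
    (by rwa [Set.ncard_coe_finset])
  have bf : B.Finite := Set.finite_of_ncard_pos (by omega)
  let E := range k ×ˢ range (k ^ 2) ×ˢ range k
  refine ⟨bf.toFinset, fun b hb => b2 (bf.mem_toFinset.1 hb),
    by rw [← b3, Set.ncard_eq_toFinset_card _ bf], E.image fun e => val k e.1 e.2.1 e.2.2,
    fun z hz => ?_, fun C _ hC h => ?_⟩
  · obtain ⟨⟨a, b, x⟩, he, rfl⟩ := mem_image.1 hz
    simp only [E, mem_product, mem_range] at he
    refine ⟨mul_pos (mul_pos (pr_prime _ _ _).pos (pr_prime _ _ _).pos)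
      (prod_pos fun _ _ => (pr_prime _ _ _).pos), P (x, a * x + b), bf.mem_toFinset.2 (b1 ?_),
      Q (a, b), bf.mem_toFinset.2 (b1 ?_), ?_⟩
    · refine mem_union_left _ (mem_image_of_mem _ (mem_product.2 ⟨mem_range.2 he.2.2,
        mem_range.2 ?_⟩))
      have := Nat.mul_le_mul he.1.le he.2.2.le
      nlinarith
    · exact mem_union_right _ (mem_image_of_mem _ (mem_product.2 ⟨mem_range.2 he.1,
        mem_range.2 he.2.1⟩))
    · simp only [P, Q, val]
      rw [← mul_prod_erase _ _ (mem_range.2 he.2.2)]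
      have := (pos 2 x (a * x + b)).ne'
      push_cast; field_simp
  · have key : ∀ e ∈ E, ∃ z ∈ C, z ∣ val k e.1 e.2.1 e.2.2 ∧ ∀ a' b' x', x' < k →
        z ∣ val k a' b' x' → e.1 = a' ∧ e.2.1 = b' ∧ e.2.2 = x' := by
      rintro ⟨a, b, x⟩ he
      obtain ⟨u, hu, w, hw, e⟩ := h _ (mem_image_of_mem _ he)
      have : pr 0 x (a * x + b) ∣ u * w := e ▸ (Dvd.intro _ rfl).mul_right _
      rcases (pr_prime _ _ _).dvd_mul.1 this with h1 | h1
      · obtain ⟨z, rfl | rfl, hz⟩ := priv e h1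
        · exact ⟨z, hu, Dvd.intro _ e.symm, hz⟩
        · exact ⟨z, hw, Dvd.intro_left _ e.symm, hz⟩
      · obtain ⟨z, rfl | rfl, hz⟩ := priv (e.trans (mul_comm _ _)) h1
        · exact ⟨z, hw, Dvd.intro_left _ e.symm, hz⟩
        · exact ⟨z, hu, Dvd.intro _ e.symm, hz⟩
    choose! f f1 f2 f3 using key
    have c := card_le_card_of_injOn f (fun e he => f1 e he) (fun e he e' he' hh => by
      have := f3 e he e'.1 e'.2.1 e'.2.2 (mem_range.1 (mem_product.1 (mem_product.1 he').2).2)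
        (hh ▸ f2 e' he')
      exact Prod.ext this.1 (Prod.ext this.2.1 this.2.2))
    simp only [E, card_product, card_range] at c
    have c1 : n ^ 7 ≤ (k * (k ^ 2 * k)) ^ 6 := by
      have h1 := Nat.pow_le_pow_left k3 7
      have h2 : 24 ^ 7 ≤ k ^ 3 := by omega
      calc n ^ 7 ≤ 24 ^ 7 * k ^ 21 := by rw [mul_pow, ← pow_mul] at h1; exact h1
        _ ≤ k ^ 3 * k ^ 21 := Nat.mul_le_mul_right _ h2
        _ = _ := by ring
    have c2 : (n : ℝ) ^ 7 ≤ (C.card : ℝ) ^ 6 := by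
      exact_mod_cast c1.trans (Nat.pow_le_pow_left c 6)
    have c3 := pow_lt_pow_left₀ hC (by positivity) (n := 6) (by norm_num)
    rw [← Real.rpow_natCast _ 6, ← Real.rpow_natCast ((n : ℝ) ^ _), ← Real.rpow_mul (by positivity),
      Real.rpow_natCast, show (1 + 1 / 6 : ℝ) * (6 : ℕ) = (7 : ℕ) by norm_num,
      Real.rpow_natCast] at c3
    linarith

end Pool.Agent.Results.MP_e3bb54_nt.Gap
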